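import Pool.Agent.H2.L.R_seed8.H887R3.LW.MV6

/-!
# Part 7: the compactness theorem for coprime pairs in several variables
-/

set_option autoImplicit false

namespace Pool.Agent.H887R3.LW

open Polynomial Filter MeasureTheory Topology
open Pool.Agent.H261R2.CM

noncomputable section

/-- the real dimension of the joint Newton polytope of a pair -/
def dimR {k : ℕ} (C D : MvPolynomial (Fin k) ℤ) : ℕ :=
  Module.finrank ℝ (vectorSpan ℝ (vecs ℝ (C.support ∪ D.support)))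

theorem bd_spec {d : ℕ → ℕ} {M δ : ℕ → ℕ} (F : ∀ n, MvPolynomial (Fin (d n)) ℤ)
    (hδ : ∀ n, ∀ s ∈ (F n).support, ∀ l, s l ≤ δ n) :
    Bd d M δ (fun n => spec (pw (M n) (d n)) (F n)) := by
  classical
  intro n N hN
  have hN0 : 0 ≤ N := by
    by_contra h
    unfold zc at hN
    rw [if_neg h] at hN
    exact hN rfl
  obtain ⟨K, rfl⟩ := Int.eq_ofNat_of_zero_le hN0
  have hexp : spec (pw (M n) (d n)) (F n) = ∑ s ∈ (F n).support,
      Polynomial.C ((F n).coeff s) * X ^ (∑ i, s i * pw (M n) (d n) i) := by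
    conv_lhs => rw [(F n).as_sum]
    rw [map_sum]
    exact Finset.sum_congr rfl fun s' _ => TG.spec_monomial _ _ _
  unfold zc at hN
  rw [if_pos hN0] at hN
  have h1 : (spec (pw (M n) (d n)) (F n)).coeff K ≠ 0 := by simpa using hN
  rw [hexp, Polynomial.finsetSum_coeff] at h1
  obtain ⟨s, hs, hne⟩ := Finset.exists_ne_zero_of_sum_ne_zero h1
  rw [Polynomial.coeff_C_mul, Polynomial.coeff_X_pow] at hne
  have h2 : K = ∑ i, s i * pw (M n) (d n) i := by
    by_contra h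
    rw [if_neg h, mul_zero] at hne
    exact hne rfl
  refine ⟨fun i => (s i : ℤ), fun i => ⟨by positivity, ?_⟩, ?_⟩
  · have h3 := hδ n s hs i
    change ((s i : ℕ) : ℤ) ≤ (δ n : ℤ)
    exact_mod_cast h3
  · rw [h2]
    push_cast
    rfl

/-- the length (sum of the absolute values of the coefficients) -/
def mlen {k : ℕ} (F : MvPolynomial (Fin k) ℤ) : ℤ := ∑ s ∈ F.support, |F.coeff s|

theorem mlen_msub {k m : ℕ} (E : Fin k → Fin m → ℤ) (L : ℕ) (C : MvPolynomial (Fin k) ℤ) :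
    mlen (msub E L C) ≤ mlen C := by
  classical
  unfold mlen
  set T := (msub E L C).support with hT
  calc ∑ u ∈ T, |(msub E L C).coeff u|
      ≤ ∑ u ∈ T, ∑ s ∈ C.support, |if ex E L s = u then C.coeff s else 0| := by
        refine Finset.sum_le_sum fun u _ => ?_
        unfold msub
        rw [MvPolynomial.coeff_sum]
        refine (Finset.abs_sum_le_sum_abs _ _).trans (le_of_eq ?_)
        refine Finset.sum_congr rfl fun s _ => ?_
        rw [MvPolynomial.coeff_monomial]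
    _ = ∑ s ∈ C.support, ∑ u ∈ T, |if ex E L s = u then C.coeff s else 0| := Finset.sum_comm
    _ ≤ ∑ s ∈ C.support, |C.coeff s| := by
        refine Finset.sum_le_sum fun s _ => ?_
        by_cases h : ex E L s ∈ T
        · rw [Finset.sum_eq_single_of_mem _ h]
          · rw [if_pos rfl]
          · intro u _ hu
            rw [if_neg (Ne.symm hu), abs_zero]
        · rw [Finset.sum_eq_zero]
          · exact abs_nonneg _
          · intro u hu
            rw [if_neg, abs_zero]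
            rintro rfl
            exact h hu

theorem struct_full (d : ℕ → ℕ) (F G : ∀ n, MvPolynomial (Fin (d n)) ℤ) (hF : ∀ n, F n ≠ 0)
    (hG : ∀ n, G n ≠ 0) (hFG : ∀ n, IsRelPrime (F n) (G n)) (K : ℝ)
    (hK : ∀ n, mx (F n) (G n) ≤ K) :
    ∃ (k : ℕ) (C D : MvPolynomial (Fin k) ℤ), C ≠ 0 ∧ D ≠ 0 ∧ IsRelPrime C D ∧
      Tendsto (fun n => mM (F n)) (hyperfilter ℕ : Filter ℕ) (𝓝 (mM C)) ∧
      Tendsto (fun n => mx (F n) (G n)) (hyperfilter ℕ : Filter ℕ) (𝓝 (mx C D)) ∧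
      Tendsto (fun n => mM (G n)) (hyperfilter ℕ : Filter ℕ) (𝓝 (mM D)) ∧
      k ≤ dimJ C D ∧ ∀ᶠ n in (hyperfilter ℕ : Filter ℕ), (dimR (F n) (G n) ≤ k ∧
        dimJ (F n) (G n) ≤ k ∧ (k ≤ dimJ (F n) (G n) → mM (F n) = mM C ∧ mM (G n) = mM D ∧
          mx (F n) (G n) = mx C D)) ∧
        ∃ P Q : MvPolynomial (Fin (d n)) ℤ, P ≠ 0 ∧ Q ≠ 0 ∧ P * F n = Q * G n ∧
          mlen P ≤ mlen D ∧ mlen Q ≤ mlen C := by
  classical
  have hle : (hyperfilter ℕ : Filter ℕ) ≤ atTop := I2_hyper_le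
  set δ : ℕ → ℕ := fun n => 1 + (F n).totalDegree + (G n).totalDegree with hδ
  have hδF : ∀ n, ∀ s ∈ (F n).support, ∀ l, s l ≤ δ n := by
    intro n s hs l
    have h1 := (MvPolynomial.monomial_le_degreeOf l hs).trans
      (MvPolynomial.degreeOf_le_totalDegree (F n) l)
    simp only [hδ]
    omega
  have hδG : ∀ n, ∀ s ∈ (G n).support, ∀ l, s l ≤ δ n := by
    intro n s hs l
    have h1 := (MvPolynomial.monomial_le_degreeOf l hs).trans
      (MvPolynomial.degreeOf_le_totalDegree (G n) l)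
    simp only [hδ]
    omega
  have happ : ∀ n : ℕ, ∃ (M : ℕ) (A B R : ℤ[X]), n * δ n + 1 ≤ M ∧ A ≠ 0 ∧ B ≠ 0 ∧ R ≠ 0 ∧
      IsRelPrime A B ∧ spec (pw M (d n)) (F n) = R * A ∧ spec (pw M (d n)) (G n) = R * B ∧
      |m1 A - mM (F n)| < 1 / ((n : ℝ) + 1) ∧ |mx1 A B - mx (F n) (G n)| < 1 / ((n : ℝ) + 1) ∧
      |m1 B - mM (G n)| < 1 / ((n : ℝ) + 1) :=
    fun n => approx_gen (F n) (G n) (hF n) (hG n) (hFG n) _ (by positivity) _
  choose M A B R hM hA hB hR hAB hFA hGB h1 h2 h2' using happ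
  have hle1 : ∀ n : ℕ, 1 / ((n : ℝ) + 1) ≤ 1 := by
    intro n
    rw [div_le_one (by positivity)]
    have : (0 : ℝ) ≤ n := Nat.cast_nonneg n
    linarith
  have hK1 : ∀ n, mx1 (A n) (B n) ≤ K + 1 := by
    intro n
    have h3 := (abs_lt.mp (h2 n)).2
    have h4 := hK n
    have h5 := hle1 n
    linarith
  set P : ℕ → ℤ[X] := fun n => spec (pw (M n) (d n)) (F n) with hPdef
  set Q : ℕ → ℤ[X] := fun n => spec (pw (M n) (d n)) (G n) with hQdef
  have hPeq : (fun n => R n * A n) = P := by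
    funext n
    exact (hFA n).symm
  have hQeq : (fun n => R n * B n) = Q := by
    funext n
    exact (hGB n).symm
  have hP : ∀ n, P n ≠ 0 := fun n => by
    rw [← hPeq]
    exact mul_ne_zero (hR n) (hA n)
  have hQ : ∀ n, Q n ≠ 0 := fun n => by
    rw [← hQeq]
    exact mul_ne_zero (hR n) (hB n)
  obtain ⟨S₀, x₀, hrel₀⟩ := rel_of_bounded A B hA hB (K + 1) hK1
  have hrel₁ : Rel P Q S₀ x₀ := by
    have := hrel₀.mul R
    rwa [hPeq, hQeq] at this
  obtain ⟨S₁, hrel₂, hS₁⟩ := coset_rel (bd_spec F hδF) (bd_spec G hδG) hrel₁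
  -- a relation of minimal rank
  have hexr : ∃ r : ℕ, ∃ S x, Rel P Q S x ∧ (∀ γ ∈ S, ∀ γ' ∈ S, γ - γ' ∈ HH d M δ) ∧ rkS S = r :=
    ⟨rkS S₁, S₁, x₀, hrel₂, hS₁, rfl⟩
  obtain ⟨S, x, hrel, hS, hrk⟩ := Nat.find_spec hexr
  have hmin : ∀ S' x', Rel P Q S' x' → (∀ γ ∈ S', ∀ γ' ∈ S', γ - γ' ∈ HH d M δ) →
      rkS S ≤ rkS S' := by
    intro S' x' h3 h4
    rw [hrk]
    exact Nat.find_min' hexr ⟨S', x', h3, h4, rfl⟩
  obtain ⟨k, e, C, D, b, hC, hD, hCD, hAI, hbH, heb, hepos, hspec, hk⟩ :=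
    structure_H P Q hP hQ (HH d M δ) S x hrel hS hmin
  -- the limits
  have hspecAB : ∀ᶠ n in (hyperfilter ℕ : Filter ℕ),
      spec (e n) D * A n = spec (e n) C * B n := by
    filter_upwards [hspec] with n hn
    rw [← hPeq, ← hQeq] at hn
    apply mul_left_cancel₀ (hR n)
    calc R n * (spec (e n) D * A n) = spec (e n) D * (R n * A n) := by ring
      _ = spec (e n) C * (R n * B n) := hn
      _ = _ := by ring
  obtain ⟨hl1, hl2⟩ := limit_all C D hC hD hCD (hyperfilter ℕ) e hAI A B hA hB hAB hspecAB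
  have hl1' : Tendsto (fun n => mM (F n)) (hyperfilter ℕ : Filter ℕ) (𝓝 (mM C)) := by
    have h3 : Tendsto (fun n => m1 (A n) - mM (F n)) (hyperfilter ℕ : Filter ℕ) (𝓝 0) := by
      refine Tendsto.mono_left ?_ hle
      refine squeeze_zero_norm (fun n => ?_) tendsto_one_div_add_atTop_nhds_zero_nat
      rw [Real.norm_eq_abs]
      exact (h1 n).le
    have h4 := hl1.sub h3
    rw [sub_zero] at h4
    refine h4.congr fun n => ?_
    ring
  have hl2' : Tendsto (fun n => mx (F n) (G n)) (hyperfilter ℕ : Filter ℕ) (𝓝 (mx C D)) := by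
    have h3 : Tendsto (fun n => mx1 (A n) (B n) - mx (F n) (G n))
        (hyperfilter ℕ : Filter ℕ) (𝓝 0) := by
      refine Tendsto.mono_left ?_ hle
      refine squeeze_zero_norm (fun n => ?_) tendsto_one_div_add_atTop_nhds_zero_nat
      rw [Real.norm_eq_abs]
      exact (h2 n).le
    have h4 := hl2.sub h3
    rw [sub_zero] at h4
    refine h4.congr fun n => ?_
    ring
  have hl3 := (limit_all D C hD hC hCD.symm (hyperfilter ℕ) e hAI B A hB hA
    (fun n => (hAB n).symm) (hspecAB.mono fun n h => h.symm)).1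
  have hl3' : Tendsto (fun n => mM (G n)) (hyperfilter ℕ : Filter ℕ) (𝓝 (mM D)) := by
    have h3 : Tendsto (fun n => m1 (B n) - mM (G n)) (hyperfilter ℕ : Filter ℕ) (𝓝 0) := by
      refine Tendsto.mono_left ?_ hle
      refine squeeze_zero_norm (fun n => ?_) tendsto_one_div_add_atTop_nhds_zero_nat
      rw [Real.norm_eq_abs]
      exact (h2' n).le
    have h4 := hl3.sub h3
    rw [sub_zero] at h4
    refine h4.congr fun n => ?_
    ring
  refine ⟨k, C, D, hC, hD, hCD, hl1', hl2', hl3', hk, ?_⟩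
  -- the exponents
  choose j hj using hbH
  set J : ℕ := ∑ i, j i with hJ
  have hjJ : ∀ i, j i ≤ J := fun i =>
    Finset.single_le_sum (f := fun i => j i) (fun _ _ => Nat.zero_le _) (Finset.mem_univ i)
  have hSm : ∀ᶠ n in (hyperfilter ℕ : Filter ℕ), ∀ i, Sm d M δ J n (rep (b i) n) := by
    rw [Filter.eventually_all]
    intro i
    filter_upwards [hj i] with n hn
    exact hn.mono (hjJ i)
  have hpos : ∀ᶠ n in (hyperfilter ℕ : Filter ℕ), ∀ i, 0 < e n i := by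
    rw [Filter.eventually_all]
    exact hepos
  set τ : ℕ := C.totalDegree + D.totalDegree with hτ
  have hlarge : ∀ᶠ n in (hyperfilter ℕ : Filter ℕ), 2 * (τ * J) + 1 ≤ n :=
    hle (eventually_ge_atTop _)
  filter_upwards [hSm, hpos, hlarge, heb, hspec, spec_ne_zero _ e hAI C hC,
    spec_ne_zero _ e hAI D hD] with n h3 h4 h5 h6 h7 h8 h9
  choose E hE1 hE2 using h3
  set L : ℕ := τ * J * δ n with hLdef
  have he : ∀ i, (e n i : ℤ) = ∑ l, E i l * (pw (M n) (d n) l : ℤ) := fun i => by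
    rw [h6 i, hE2 i]
  have hL : ∀ s ∈ C.support ∪ D.support, ∀ l, |∑ i, (s i : ℤ) * E i l| ≤ (L : ℤ) := by
    intro s hs l
    have hdeg : ∑ i, s i ≤ τ := by
      have h10 : (s.sum fun _ a => a) ≤ τ := by
        rcases Finset.mem_union.1 hs with h | h
        · exact (MvPolynomial.le_totalDegree h).trans (Nat.le_add_right _ _)
        · exact (MvPolynomial.le_totalDegree h).trans (Nat.le_add_left _ _)
      rwa [Finsupp.sum_fintype _ _ (fun _ => rfl)] at h10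
    calc |∑ i, (s i : ℤ) * E i l| ≤ ∑ i, |(s i : ℤ) * E i l| := Finset.abs_sum_le_sum_abs _ _
      _ ≤ ∑ i, (s i : ℤ) * ((J * δ n : ℕ) : ℤ) := by
          refine Finset.sum_le_sum fun i _ => ?_
          rw [abs_mul, Nat.abs_cast]
          exact mul_le_mul_of_nonneg_left (hE1 i l) (by positivity)
      _ = ((∑ i, s i : ℕ) : ℤ) * ((J * δ n : ℕ) : ℤ) := by
          rw [← Finset.sum_mul]
          push_cast
          rfl
      _ ≤ (τ : ℤ) * ((J * δ n : ℕ) : ℤ) := by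
          refine mul_le_mul_of_nonneg_right ?_ (by positivity)
          exact_mod_cast hdeg
      _ = (L : ℤ) := by
          rw [hLdef]
          push_cast
          ring
  have hMn : 2 * L + δ n < M n := by
    have h10 : (2 * (τ * J) + 1) * δ n ≤ n * δ n := Nat.mul_le_mul_right _ h5
    have h11 := hM n
    rw [hLdef]
    nlinarith
  have hmrel := lift_rel C D (F n) (G n) E L (δ n) (M n) hL (hδF n) (hδG n) hMn (e n) he h7
  have hmC : msub E L C ≠ 0 := by
    intro h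
    have h10 := spec_msub E L C (fun s hs => hL s (Finset.mem_union_left _ hs)) _ (e n) he
    rw [h, map_zero] at h10
    exact (mul_ne_zero (pow_ne_zero _ X_ne_zero) h8) h10.symm
  have hmD : msub E L D ≠ 0 := by
    intro h
    have h10 := spec_msub E L D (fun s hs => hL s (Finset.mem_union_right _ hs)) _ (e n) he
    rw [h, map_zero] at h10
    exact (mul_ne_zero (pow_ne_zero _ X_ne_zero) h9) h10.symm
  have hspanR := vectorSpan_le_E ℝ C D (F n) (G n) (hF n) (hG n) (hFG n) E L hL hmC hmD hmrel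
  have hspanQ := vectorSpan_le_E ℚ C D (F n) (G n) (hF n) (hG n) (hFG n) E L hL hmC hmD hmrel
  refine ⟨⟨?_, ?_, ?_⟩, msub E L D, msub E L C, hmD, hmC, hmrel, mlen_msub _ _ _,
    mlen_msub _ _ _⟩
  · refine (Submodule.finrank_mono hspanR).trans ?_
    have := finrank_range_le_card (R := ℝ) (fun (i : Fin k) (l : Fin (d n)) => ((E i l : ℤ) : ℝ))
    rwa [Fintype.card_fin] at this
  · refine (Submodule.finrank_mono hspanQ).trans ?_
    have := finrank_range_le_card (R := ℚ) (fun (i : Fin k) (l : Fin (d n)) => ((E i l : ℤ) : ℚ))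
    rwa [Fintype.card_fin] at this
  · intro hkle
    have hli : LinearIndependent ℚ (fun (i : Fin k) (l : Fin (d n)) => ((E i l : ℤ) : ℚ)) := by
      rw [linearIndependent_iff_card_le_finrank_span, Fintype.card_fin]
      exact hkle.trans (Submodule.finrank_mono hspanQ)
    refine meas_eq C D (F n) (G n) hC hD hCD (hF n) (hG n) (hFG n) E ?_ L hL (M n) (e n) h4 he hmrel
    intro c hc
    rw [Fintype.linearIndependent_iff] at hli
    have h10 := hli (fun i => ((c i : ℤ) : ℚ)) (by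
      funext l
      rw [Finset.sum_apply]
      have h11 := congrArg (fun z : ℤ => (z : ℚ)) (hc l)
      simp only [Int.cast_sum, Int.cast_mul, Int.cast_zero] at h11
      simpa using h11)
    funext i
    exact_mod_cast h10 i

theorem struct_all' (d : ℕ → ℕ) (F G : ∀ n, MvPolynomial (Fin (d n)) ℤ) (hF : ∀ n, F n ≠ 0)
    (hG : ∀ n, G n ≠ 0) (hFG : ∀ n, IsRelPrime (F n) (G n)) (K : ℝ)
    (hK : ∀ n, mx (F n) (G n) ≤ K) :
    ∃ (k : ℕ) (C D : MvPolynomial (Fin k) ℤ), C ≠ 0 ∧ D ≠ 0 ∧ IsRelPrime C D ∧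
      Tendsto (fun n => mM (F n)) (hyperfilter ℕ : Filter ℕ) (𝓝 (mM C)) ∧
      Tendsto (fun n => mx (F n) (G n)) (hyperfilter ℕ : Filter ℕ) (𝓝 (mx C D)) ∧
      Tendsto (fun n => mM (G n)) (hyperfilter ℕ : Filter ℕ) (𝓝 (mM D)) ∧
      k ≤ dimJ C D ∧ ∀ᶠ n in (hyperfilter ℕ : Filter ℕ), (dimR (F n) (G n) ≤ k ∧
        dimJ (F n) (G n) ≤ k ∧ (k ≤ dimJ (F n) (G n) → mM (F n) = mM C)) ∧
        ∃ P Q : MvPolynomial (Fin (d n)) ℤ, P ≠ 0 ∧ Q ≠ 0 ∧ P * F n = Q * G n ∧
          mlen P ≤ mlen D ∧ mlen Q ≤ mlen C := by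
  obtain ⟨k, C, D, h1, h2, h3, h4, h5, h5', h6, h7⟩ := struct_full d F G hF hG hFG K hK
  exact ⟨k, C, D, h1, h2, h3, h4, h5, h5', h6, h7.mono fun n h =>
    ⟨⟨h.1.1, h.1.2.1, fun hk => (h.1.2.2 hk).1⟩, h.2⟩⟩

theorem struct_all (d : ℕ → ℕ) (F G : ∀ n, MvPolynomial (Fin (d n)) ℤ) (hF : ∀ n, F n ≠ 0)
    (hG : ∀ n, G n ≠ 0) (hFG : ∀ n, IsRelPrime (F n) (G n)) (K : ℝ)
    (hK : ∀ n, mx (F n) (G n) ≤ K) :
    ∃ (k : ℕ) (C D : MvPolynomial (Fin k) ℤ), C ≠ 0 ∧ D ≠ 0 ∧ IsRelPrime C D ∧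
      Tendsto (fun n => mM (F n)) (hyperfilter ℕ : Filter ℕ) (𝓝 (mM C)) ∧
      Tendsto (fun n => mx (F n) (G n)) (hyperfilter ℕ : Filter ℕ) (𝓝 (mx C D)) ∧
      k ≤ dimJ C D ∧ ∀ᶠ n in (hyperfilter ℕ : Filter ℕ), dimR (F n) (G n) ≤ k ∧
        dimJ (F n) (G n) ≤ k ∧ (k ≤ dimJ (F n) (G n) → mM (F n) = mM C) := by
  obtain ⟨k, C, D, h1, h2, h3, h4, h5, -, h6, h7⟩ := struct_all' d F G hF hG hFG K hK
  exact ⟨k, C, D, h1, h2, h3, h4, h5, h6, h7.mono fun n h => h.1⟩

end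

end Pool.Agent.H887R3.LW
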