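import Pool.Agent.H2.L.R_seed8.H887R3.LW.MV7
import Pool.Agent.H2.L.R_seed8.H261R2.CM.K6

/-!
# Part 8: the dimension of the Newton polytope is bounded in terms of the height of the pair
-/

set_option autoImplicit false

namespace Pool.Agent.H887R3.LW

open Polynomial Filter MeasureTheory Topology
open Pool.Agent.H261R2.CM

noncomputable section

theorem dim_bound (K : ℝ) : ∃ m₀ : ℕ, ∀ (k : ℕ) (F G : MvPolynomial (Fin k) ℤ), F ≠ 0 → G ≠ 0 →
    IsRelPrime F G → mx F G ≤ K → dimR F G ≤ m₀ ∧ dimJ F G ≤ m₀ := by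
  by_contra hcon
  push Not at hcon
  choose d F G hF hG hFG hK hdim using hcon
  obtain ⟨k, C, D, -, -, -, -, -, -, hev⟩ := struct_all d F G hF hG hFG K hK
  have hge : ∀ᶠ n in (hyperfilter ℕ : Filter ℕ), k ≤ n := I2_hyper_le (eventually_ge_atTop k)
  obtain ⟨n, hn1, hn2⟩ := (hev.and hge).exists
  have h1 := hdim n (hn1.1.trans hn2)
  have h2 := hn1.2.1
  omega

/-- the dimension of the Newton polytope -/
def newtonDim {k : ℕ} (F : MvPolynomial (Fin k) ℤ) : ℕ :=
  Module.finrank ℝ (vectorSpan ℝ (vecs ℝ F.support))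

theorem newtonDim_le {k : ℕ} (F G : MvPolynomial (Fin k) ℤ) : newtonDim F ≤ dimR F G := by
  classical
  unfold newtonDim dimR
  refine Submodule.finrank_mono (vectorSpan_mono ℝ ?_)
  unfold vecs
  refine Set.image_mono ?_
  intro s hs
  exact Finset.mem_coe.2 (Finset.mem_union_left _ (Finset.mem_coe.1 hs))

theorem newtonDim_rename {k : ℕ} (F : MvPolynomial (Fin k) ℤ) :
    newtonDim F ≤ newtonDim (MvPolynomial.rename (Fin.succ : Fin k → Fin (k + 1)) F) := by
  classical
  unfold newtonDim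
  set T : (Fin (k + 1) → ℝ) →ₗ[ℝ] (Fin k → ℝ) := LinearMap.funLeft ℝ ℝ Fin.succ with hT
  have hle : vectorSpan ℝ (vecs ℝ F.support) ≤ Submodule.map T
      (vectorSpan ℝ (vecs ℝ (MvPolynomial.rename (Fin.succ : Fin k → Fin (k + 1)) F).support)) := by
    have hkey : ∀ s ∈ F.support, ∃ v ∈ vecs ℝ
        (MvPolynomial.rename (Fin.succ : Fin k → Fin (k + 1)) F).support,
        T v = fun i => ((s i : ℕ) : ℝ) := by
      intro s hs
      have h1 : Finsupp.mapDomain Fin.succ s ∈
          (MvPolynomial.rename (Fin.succ : Fin k → Fin (k + 1)) F).support := by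
        rw [MvPolynomial.support_rename_of_injective (Fin.succ_injective k)]
        exact Finset.mem_image_of_mem _ hs
      refine ⟨_, ⟨_, h1, rfl⟩, ?_⟩
      funext i
      simp only [hT, LinearMap.funLeft_apply]
      rw [Finsupp.mapDomain_apply (Fin.succ_injective k)]
    unfold vectorSpan
    rw [Submodule.span_le]
    rintro _ ⟨_, ⟨s, hs, rfl⟩, _, ⟨t, ht, rfl⟩, rfl⟩
    obtain ⟨v, hv, hv'⟩ := hkey s hs
    obtain ⟨w, hw, hw'⟩ := hkey t ht
    refine ⟨v -ᵥ w, Submodule.subset_span ⟨v, hv, w, hw, rfl⟩, ?_⟩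
    change T (v - w) = _
    rw [map_sub, hv', hw']
    rfl
  exact (Submodule.finrank_mono hle).trans (Submodule.finrank_map_le _ _)

theorem mx_recip {k : ℕ} (F : MvPolynomial (Fin k) ℤ) : mx F (recip F) = Real.log (mM F) := by
  rw [log_mM]
  unfold mx
  refine integral_congr_ae (Eventually.of_forall fun t => ?_)
  simp only
  rw [J.norm_tv_recip, max_self]

theorem relPrime_recip {k : ℕ} (F : MvPolynomial (Fin k) ℤ) (hF : Irreducible F)
    (h : ¬ Associated (recip F) F) : IsRelPrime F (recip F) := by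
  rw [hF.isRelPrime_iff_not_dvd]
  intro hdvd
  by_cases hX : ∃ i, Associated F (MvPolynomial.X i)
  · obtain ⟨i, hi⟩ := hX
    exact J.not_X_dvd_recip hF.ne_zero i (hi.symm.dvd.trans hdvd)
  · push Not at hX
    have h1 := J.irreducible_recip hF hX
    exact h (hF.associated_of_dvd h1 hdvd).symm

theorem width_pair' {k : ℕ} (F : MvPolynomial (Fin k) ℤ) (hF : F ≠ 0) (i : Fin k) (m : ℕ)
    (hm : F.degreeOf i ≤ m) (hX : ¬ MvPolynomial.X i ∣ F)
    (hprim : ∀ Q, Q ∣ F → Q.degreeOf i = 0 → IsUnit Q) :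
    K8.gsub i F ≠ 0 ∧ IsRelPrime (MvPolynomial.rename Fin.succ F) (K8.gsub i F) ∧
      mx (MvPolynomial.rename Fin.succ F) (K8.gsub i F) ≤ Real.log (mM F) + m * Real.log 2 := by
  refine ⟨K8.gsub_ne_zero hX, K8.relPrime_gsub hF hX hprim, ?_⟩
  obtain ⟨k', rfl⟩ : ∃ k', k = k' + 1 := ⟨k - 1, by have := i.2; omega⟩
  have hlog : Real.log (mM F) = ∫ t in Set.Icc (0 : Fin (k' + 1) → ℝ) 1, Real.log ‖tv F t‖ := by
    unfold mM; rw [Real.log_exp]
  obtain ⟨h1, h2⟩ := K8.cube_slice i (fun x => Real.log ‖tv F x‖) (F_integrable hF)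
  unfold mx
  by_cases hint : IntegrableOn (fun t : Fin (k' + 1 + 1) → ℝ =>
      Real.log (max ‖tv (MvPolynomial.rename Fin.succ F) t‖ ‖tv (K8.gsub i F) t‖))
      (Set.Icc 0 1)
  swap
  · rw [integral_undef hint]
    have := Real.log_nonneg (one_le_mM F hF)
    have := Real.log_nonneg (show (1:ℝ) ≤ 2 by norm_num)
    positivity
  have h3 : IntegrableOn (fun x : Fin (k' + 1) → ℝ => m * Real.log 2 +
      ∫ w in Set.Icc (0 : ℝ) 1, Real.log ‖tv F (Function.update x i w)‖) (Set.Icc 0 1) := by
    refine Integrable.add ?_ h1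
    exact integrable_const _
  have h4 := K8.integrable_tail 0 _ h3
  calc ∫ t in Set.Icc (0 : Fin (k' + 1 + 1) → ℝ) 1,
        Real.log (max ‖tv (MvPolynomial.rename Fin.succ F) t‖ ‖tv (K8.gsub i F) t‖)
      ≤ ∫ t in Set.Icc (0 : Fin (k' + 1 + 1) → ℝ) 1,
        ((fun x : Fin (k' + 1) → ℝ => m * Real.log 2 +
          ∫ w in Set.Icc (0 : ℝ) 1, Real.log ‖tv F (Function.update x i w)‖)
          (Fin.removeNth 0 t)) := by
        refine integral_mono_ae hint h4 ?_
        filter_upwards [F_zero_null (J.rename_ne_zero hF)] with t ht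
        rw [J.tv_rename] at ht
        rw [J.tv_rename, K8.tv_gsub]
        exact K8.log_bound hm _ _ ht
    _ = m * Real.log 2 + Real.log (mM F) := by
        refine (K8.integral_tail 0 (fun x : Fin (k' + 1) → ℝ => m * Real.log 2 +
          ∫ w in Set.Icc (0 : ℝ) 1, Real.log ‖tv F (Function.update x i w)‖)).trans ?_
        rw [integral_add (integrable_const _) h1, h2, hlog, setIntegral_const, J.vol_cube]
        simp
    _ = _ := add_comm _ _

theorem degreeOf_unit {k : ℕ} {R : MvPolynomial (Fin k) ℤ} (h : IsUnit R) (i : Fin k) :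
    R.degreeOf i = 0 := by
  have hR0 : R ≠ 0 := h.ne_zero
  obtain ⟨R', hR'⟩ := h.exists_right_inv
  have hR'0 : R' ≠ 0 := by
    rintro rfl
    rw [mul_zero] at hR'
    exact zero_ne_one hR'
  have h5 := MvPolynomial.degreeOf_mul_eq (n := i) hR0 hR'0
  rw [hR'] at h5
  have h6 : (1 : MvPolynomial (Fin k) ℤ).degreeOf i = 0 := by
    simp
  omega

/-- Boyd's conjecture on the dimension, for irreducible polynomials that are nonreciprocal or of
bounded degree in one of their variables -/
theorem boyd_dim (B : ℝ) (w : ℕ) : ∃ m₀ : ℕ, ∀ (k : ℕ) (F : MvPolynomial (Fin k) ℤ),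
    Irreducible F → m₀ ≤ newtonDim F →
    (¬ Associated (recip F) F ∨ ∃ i, 1 ≤ F.degreeOf i ∧ F.degreeOf i ≤ w) → B ≤ mM F := by
  set K : ℝ := Real.log (max B 1) + w * Real.log 2 with hK
  have hlog2 : 0 ≤ Real.log 2 := Real.log_nonneg (by norm_num)
  have hlogB : 0 ≤ Real.log (max B 1) := Real.log_nonneg (le_max_right _ _)
  have hwl : 0 ≤ (w : ℝ) * Real.log 2 := by positivity
  obtain ⟨m₀, hm₀⟩ := dim_bound K
  refine ⟨m₀ + 1, fun k F hF hdim hcase => ?_⟩
  by_contra hlt
  push Not at hlt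
  have hpos : 0 < mM F := lt_of_lt_of_le one_pos (one_le_mM F hF.ne_zero)
  have hlogF : Real.log (mM F) ≤ Real.log (max B 1) :=
    Real.log_le_log hpos (hlt.le.trans (le_max_left _ _))
  rcases hcase with hrec | ⟨i, hi1, hi2⟩
  · have h1 := (hm₀ k F (recip F) hF.ne_zero (J.recip_ne_zero hF.ne_zero)
      (relPrime_recip F hF hrec) (by rw [mx_recip]; linarith)).1
    have h2 := newtonDim_le F (recip F)
    omega
  · by_cases hX : MvPolynomial.X i ∣ F
    · have hass : Associated F (MvPolynomial.X i) := by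
        obtain ⟨R, hR⟩ := hX
        rcases hF.isUnit_or_isUnit hR with h | h
        · exfalso
          have h1 := degreeOf_unit h i
          rw [MvPolynomial.degreeOf_X, if_pos rfl] at h1
          omega
        · rw [hR]
          exact (associated_mul_unit_right _ _ h).symm
      have hnorm : ∀ t, ‖tv F t‖ = 1 := by
        intro t
        rw [J.norm_tv_associated hass t, J.tv_X, J.norm_zz]
      have hmx : mx F 1 ≤ K := by
        have h1 : mx F 1 = 0 := by
          unfold mx
          have h2 : ∀ t : Fin k → ℝ, Real.log (max ‖tv F t‖ ‖tv (1 : MvPolynomial (Fin k) ℤ) t‖)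
              = 0 := by
            intro t
            rw [hnorm t, J.tv_one]
            simp
          simp only [h2]
          simp
        rw [h1]
        linarith
      have h1 := (hm₀ k F 1 hF.ne_zero one_ne_zero isRelPrime_one_right hmx).1
      have h2 := newtonDim_le F 1
      omega
    · have hprim : ∀ Q, Q ∣ F → Q.degreeOf i = 0 → IsUnit Q := by
        intro Q hQ hQ0
        obtain ⟨R, hR⟩ := hQ
        rcases hF.isUnit_or_isUnit hR with h | h
        · exact h
        · exfalso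
          have hQ' : Q ≠ 0 := by
            rintro rfl
            exact hF.ne_zero (by rw [hR, zero_mul])
          have hR0 : R ≠ 0 := h.ne_zero
          have h3 : F.degreeOf i = Q.degreeOf i + R.degreeOf i := by
            rw [hR, MvPolynomial.degreeOf_mul_eq hQ' hR0]
          have h4 : R.degreeOf i = 0 := degreeOf_unit h i
          omega
      obtain ⟨h1, h2, h3⟩ := width_pair' F hF.ne_zero i w hi2 hX hprim
      have h4 := (hm₀ (k + 1) _ _ (J.rename_ne_zero hF.ne_zero) h1 h2 (by linarith)).1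
      have h5 := newtonDim_le (MvPolynomial.rename (Fin.succ : Fin k → Fin (k + 1)) F)
        (K8.gsub i F)
      have h6 := newtonDim_rename F
      omega

end

end Pool.Agent.H887R3.LW
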